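import Pool.Agent.helper20.AL.Upper
import Pool.Agent.helper20.AL.Lower

/-!
# Even cycles in graphs with a free action of an abelian group

Let an abelian group act freely by automorphisms, with `t` orbits, on a graph with `n` vertices and `e` edges which contains no
cycle of length `2k`, `k ≥ 3`.  Then `e ≤ C n t ^ (1 / ⌊k / 3⌋)` with a constant `C` depending only on `k`, and for
`3 ≤ k ≤ 11` this is sharp up to the constant.

Proof of the upper bound.  The graph of the orbits with its voltages is explored by a breadth first search; if
it has many edges then at a level at most `⌊k / 3⌋` there is a dense pair of levels, below a vertex `p` of minimal height it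
contains a core which is spread over many branches and many voltage classes at `p`, and the core contains three internally
disjoint paths between `p` and another vertex with different voltages and total length `k`.  The closed walk
`P Q⁻¹ R P⁻¹ Q R⁻¹` lifts to a cycle of length `2k`.  If the classes are not spread then the argument of Bondy and Simonovits
applies to the lifted graph.  Lower bound: universal abelian lifts of complete bipartite graphs and of bipartite graphs of
girth 6 and 8.
-/

namespace Pool.Agent.Results.MP_facdf9_co.AbelianSymmetry

universe u v

/-- The number of edges of a graph without a cycle of length `2k` on which an abelian group acts freely. -/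
theorem result (k : ℕ) (hk : 3 ≤ k) :
    (∃ C : ℕ, ∀ (X : Type u) [Fintype X] (Γ : SimpleGraph X) (A : Type v) [CommGroup A]
      [MulAction A X], (∀ (g : A) (x y : X), Γ.Adj x y → Γ.Adj (g • x) (g • y)) →
      (∀ (g : A) (x : X), g • x = x → g = 1) →
      ¬ (SimpleGraph.cycleGraph (2 * k)).IsContained Γ →
      Γ.edgeSet.ncard ^ (k / 3) ≤
        C * Fintype.card X ^ (k / 3) * Nat.card (MulAction.orbitRel.Quotient A X)) ∧
    (k ≤ 11 → ∀ N : ℕ, ∃ (X : Type) (_ : Fintype X) (Γ : SimpleGraph X) (A : Type)
      (_ : CommGroup A) (_ : MulAction A X),
      (∀ (g : A) (x y : X), Γ.Adj x y → Γ.Adj (g • x) (g • y)) ∧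
      (∀ (g : A) (x : X), g • x = x → g = 1) ∧
      ¬ (SimpleGraph.cycleGraph (2 * k)).IsContained Γ ∧
      N ≤ Nat.card (MulAction.orbitRel.Quotient A X) ∧
      N * Nat.card (MulAction.orbitRel.Quotient A X) ≤ Fintype.card X ∧
      Fintype.card X ^ (k / 3) * Nat.card (MulAction.orbitRel.Quotient A X) ≤
        16 * Γ.edgeSet.ncard ^ (k / 3)) :=
  ⟨Pool.Agent.helper20.AL.upper k hk, fun h N => Pool.Agent.helper20.AL.lower k hk h N⟩

end Pool.Agent.Results.MP_facdf9_co.AbelianSymmetry
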