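import Pool.Agent.helper20.EG.Dich

/-!
# Even cycles in graphs with few orbits of automorphisms

Let `Γ` be a finite graph on `n` vertices and let `G` be a group acting on it with `t` orbits.  If
`Γ` has more than `D t n` edges and contains no cycle of length `2k`, then `G` contains many
elements which satisfy no short relation, even when applied to a suitable vertex.  Here `D` depends
only on `k`, on the number `M` of elements and on the length `L` of the relations, and
`4 L ^ 2 ≤ k`.  In particular, if `G` satisfies a law of length at most `L`, then every graph
without a cycle of length `2k` on which `G` acts with `t` orbits has at most `D t n` edges.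

The proof is by contradiction.  From a sequence of counterexamples one first extracts stars all of
whose leaves and translated centres are distinct (a double count over the orbits of ordered
pairs), and then passes to an ultraproduct with letters indexed by the rational numbers, in which
the closed words only depend on the order pattern of the letters.  A shortest closed word can then
be moved around freely, and suitable copies of it are glued into cycles of all even lengths
`2k` with `4 L ^ 2 ≤ k`.
-/

namespace Pool.Agent.Results.MP_facdf9_co.FewOrbits

universe u v

/-- Graphs with few orbits and no cycle of length `2k` are sparse unless the group contains many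
elements without short relations. -/
theorem result (L M k : ℕ) (hk : 4 * L ^ 2 ≤ k) :
    ∃ D : ℕ, ∀ (V : Type u) [Fintype V] (Γ : SimpleGraph V) (G : Type v) [Group G]
      [MulAction G V], (∀ (g : G) (a b : V), Γ.Adj a b → Γ.Adj (g • a) (g • b)) →
      D * Nat.card (MulAction.orbitRel.Quotient G V) * Fintype.card V < Γ.edgeSet.ncard →
        (SimpleGraph.cycleGraph (2 * k)).IsContained Γ ∨
        ∃ (v : V) (x : Fin M → G), (∀ i, ∃ y, Γ.Adj v y ∧ Γ.Adj (x i • v) y) ∧
          ∀ w : FreeGroup (Fin M), w ≠ 1 → w.norm ≤ L → FreeGroup.lift x w • v ≠ v :=
  Pool.Agent.Helper20.EG.orbit_dich L M k hk

end Pool.Agent.Results.MP_facdf9_co.FewOrbits
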