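import Pool.Agent.helper17.EvenCycle.Main

/-!
# MP_facdf9_co: graphs without a `2k`-cycle and with a nilpotent group of automorphisms

If a nilpotent group of class at most `c` acts on a graph with `n` vertices by automorphisms, with `m` orbits, and the graph
contains no cycle of length `2k`, where `k ≥ 3 * 2 ^ c - 3`, then the graph has at most `k ^ 3 * m * n` edges.
-/

set_option autoImplicit false

namespace Pool.Agent.Results.MP_facdf9_co.NilpotentSymmetry

theorem result (c k : ℕ) (hc : 1 ≤ c) (hk : 3 * 2 ^ c ≤ k + 3)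
    (V : Type) [Fintype V] (Γ : SimpleGraph V) [Fintype Γ.edgeSet]
    (G : Type) [Group G] [Finite G] [Group.IsNilpotent G] (hG : Group.nilpotencyClass G ≤ c)
    [MulAction G V] (haut : ∀ (g : G) (u v : V), Γ.Adj u v → Γ.Adj (g • u) (g • v))
    (hfree : (SimpleGraph.cycleGraph (2 * k)).Free Γ) :
    Γ.edgeFinset.card ≤ k ^ 3 * Nat.card (MulAction.orbitRel.Quotient G V) * Fintype.card V := by
  have := Fintype.ofFinite G
  exact Pool.Agent.helper17.EvenCycle.edges_le Γ haut hc hk
    (Subgroup.lowerCentralSeries_eq_bot_iff_nilpotencyClass_le.2 hG) hfree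

end Pool.Agent.Results.MP_facdf9_co.NilpotentSymmetry
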