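import Pool.Agent.helper20.LL.UpperS

/-!
# Even cycles in graphs with a free action of a group with short relations

Let `k ≥ C = 4 (L ^ 2 + L + 2) ^ 2`.  There is a constant `D`, depending on `M`, `L`, `k` only: if a group `A` in which every `M`
elements satisfy a nontrivial relation of length at most `L` (for example a group with a law in `M` letters of length `L`)
acts freely by automorphisms, with `t` orbits, on a graph with `n` vertices and `e` edges which contains no cycle of
length `2k`, then `e ^ l ≤ D n ^ l t` for `l = ⌊k / C⌋`.

Proof.  As in `AbelianSymmetry`, the graph of the orbits is explored by a breadth first search; if it has many edges then at a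
level at most `l` there is a core spread over many branches and many voltage classes.  The core gives many
disjoint paths of length at most `2 l` between a vertex `p` and two vertices, with different voltages.  A limit (ultraproduct)
of the voltages is a pair of sequences of elements of a group with short relations, invariant under strictly increasing
substitutions.  The short relations, for both sequences and in the free product, give closed walks which are
cycles, and sums of such cycles which have all sufficiently large lengths.
-/

namespace Pool.Agent.Results.MP_facdf9_co.ShortRelations

universe u v

/-- The number of edges of a graph without a cycle of length `2k` with a free action of a group with short relations. -/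
theorem result (M L k : ℕ) (hk : 4 * (L ^ 2 + L + 2) ^ 2 ≤ k) : ∃ D : ℕ,
    ∀ (X : Type u) [Fintype X] (Γ : SimpleGraph X) (A : Type v) [Group A] [MulAction A X],
    (∀ x : Fin M → A, ∃ w : FreeGroup (Fin M), w ≠ 1 ∧ w.norm ≤ L ∧ FreeGroup.lift x w = 1) →
    (∀ (g : A) (x y : X), Γ.Adj x y → Γ.Adj (g • x) (g • y)) →
    (∀ (g : A) (x : X), g • x = x → g = 1) →
    ¬ (SimpleGraph.cycleGraph (2 * k)).IsContained Γ →
    Γ.edgeSet.ncard ^ (k / (4 * (L ^ 2 + L + 2) ^ 2)) ≤
      D * Fintype.card X ^ (k / (4 * (L ^ 2 + L + 2) ^ 2)) *
        Nat.card (MulAction.orbitRel.Quotient A X) :=
  Pool.Agent.helper20.LL.upper_short M L k hk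

end Pool.Agent.Results.MP_facdf9_co.ShortRelations
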